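import Mathlib

/-!
# Kneading need not be monotone for `C¹`-small perturbations of the quadratic family

For every `ε > 0` there is a real analytic one-parameter family of unimodal maps whose `C¹` distance
to the quadratic family is less than `ε` and along which the kneading sequence is not monotone.
-/

set_option autoImplicit false

namespace Pool.Agent.Results.MP_ace4dd_an.NotMonotone

open Set Filter Topology
open scoped ENNReal

/-- `f` restricted to `[-1,1]` is a unimodal map (an element of the class `𝒰`) with turning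
point `c`. -/
structure IsUnimodal (f : ℝ → ℝ) (c : ℝ) : Prop where
  mem : c ∈ Icc (-1 : ℝ) 1
  cont : ContinuousOn f (Icc (-1) 1)
  maps : MapsTo f (Icc (-1) 1) (Icc (-1) 1)
  left : f (-1) = -1
  right : f 1 = -1
  inc : StrictMonoOn f (Icc (-1) c)
  dec : StrictAntiOn f (Icc c 1)

/-- The quadratic family `f_μ(x) = (μ - 1) - μ x²`. -/
def quad (μ x : ℝ) : ℝ := (μ - 1) - μ * x ^ 2

/-- The coefficient `θ_i(x)` of the kneading coordinate of `x`: the sign of the derivative of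
`f^{i+1}` at `x`, where `f` is regarded as a map of `[-1,1]`. -/
noncomputable def theta (f : ℝ → ℝ) (i : ℕ) (x : ℝ) : SignType :=
  SignType.sign (derivWithin (f^[i + 1]) (Icc (-1) 1) x)

/-- `ν` is the kneading sequence of the unimodal map `f`: the coefficientwise limit of the
kneading coordinate `θ_f(y)` as `y` increases to the turning value `f(c)`. -/
def IsKneading (f : ℝ → ℝ) (ν : ℕ → SignType) : Prop :=
  ∃ c, IsUnimodal f c ∧ ∀ i, ∀ᶠ y in 𝓝[<] (f c), theta f i y = ν i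

/-- `(g_μ)`, `μ ∈ (0,2]`, is a one-parameter family of unimodal maps, jointly `C¹`
on `[-1,1] × (0,2]`. -/
def IsFamily (g : ℝ → ℝ → ℝ) : Prop :=
  (∀ μ ∈ Ioc (0 : ℝ) 2, ∃ c, IsUnimodal (g μ) c) ∧
    ContDiffOn ℝ 1 (fun p : ℝ × ℝ => g p.2 p.1) (Icc (-1 : ℝ) 1 ×ˢ Ioc (0 : ℝ) 2)

/-- The `C¹` distance of two families over `[-1,1] × (0,2]`. -/
noncomputable def c1Dist (g f : ℝ → ℝ → ℝ) : ℝ≥0∞ :=
  ⨆ x ∈ Icc (-1 : ℝ) 1, ⨆ μ ∈ Ioc (0 : ℝ) 2, ENNReal.ofReal
    (|g μ x - f μ x| + |derivWithin (fun y => g μ y - f μ y) (Icc (-1) 1) x| +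
      |derivWithin (fun m => g m x - f m x) (Ioc 0 2) μ|)

/-- The strict lexicographic order on sequences (power series) with coefficients in
`{-1, 0, 1}`. -/
def SeqLT (a b : ℕ → SignType) : Prop := ∃ j, (∀ i < j, a i = b i) ∧ a j < b j

/-- The kneading sequence `μ ↦ ν(g_μ)` is monotone (non-decreasing or non-increasing)
on `(0,2]`. -/
def KneadingMonotone (g : ℝ → ℝ → ℝ) : Prop :=
  ∀ ν : ℝ → ℕ → SignType, (∀ μ ∈ Ioc (0 : ℝ) 2, IsKneading (g μ) (ν μ)) →
    (∀ μ ∈ Ioc (0 : ℝ) 2, ∀ μ' ∈ Ioc (0 : ℝ) 2, μ ≤ μ' → ν μ = ν μ' ∨ SeqLT (ν μ) (ν μ')) ∨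
    (∀ μ ∈ Ioc (0 : ℝ) 2, ∀ μ' ∈ Ioc (0 : ℝ) 2, μ ≤ μ' → ν μ = ν μ' ∨ SeqLT (ν μ') (ν μ))

/-! ### Unimodal maps without inflection -/

section general

variable {f : ℝ → ℝ} {c : ℝ}

/-- `f` is differentiable and its derivative has the sign of `c - x`. -/
structure Good (f : ℝ → ℝ) (c : ℝ) : Prop extends IsUnimodal f c where
  diff : Differentiable ℝ f
  sgn : ∀ x ∈ Icc (-1 : ℝ) 1, SignType.sign (deriv f x) = SignType.sign (c - x)

lemma iter_maps (h : IsUnimodal f c) (n : ℕ) : MapsTo (f^[n]) (Icc (-1) 1) (Icc (-1) 1) := by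
  induction n with
  | zero => intro x hx; simpa using hx
  | succ n ih =>
    rw [Function.iterate_succ']
    exact h.maps.comp ih

lemma iter_mono (h : Good f c) {z : ℝ} (hz : z ∈ Ioc (-1 : ℝ) 1) (n : ℕ) :
    ∃ a, -1 ≤ a ∧ a < z ∧ (StrictMonoOn (f^[n]) (Icc a z) ∨ StrictAntiOn (f^[n]) (Icc a z)) ∧
      ∃ s : SignType, ∀ y ∈ Ioo a z, SignType.sign (c - f^[n] y) = s := by
  induction n with
  | zero =>
    rcases le_or_gt z c with hzc | hzc
    · refine ⟨-1, le_refl _, hz.1, Or.inl (by simpa using strictMonoOn_id), 1, ?_⟩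
      intro y hy
      simp only [Function.iterate_zero, id]
      exact sign_eq_one_iff.2 (by linarith [hy.2])
    · refine ⟨max (-1) c, le_max_left _ _, max_lt hz.1 hzc, Or.inl (by simpa using strictMonoOn_id),
        -1, ?_⟩
      intro y hy
      have : c ≤ max (-1) c := le_max_right _ _
      simp only [Function.iterate_zero, id]
      exact sign_eq_neg_one_iff.2 (by linarith [hy.1])
  | succ n ih =>
    obtain ⟨a, ha1, haz, hF, s, hs⟩ := ih
    have hcont : Continuous (f^[n]) := h.diff.continuous.iterate n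
    have hmaps : ∀ y ∈ Icc a z, f^[n] y ∈ Icc (-1 : ℝ) 1 := fun y hy =>
      iter_maps h.toIsUnimodal n ⟨by linarith [hy.1], by linarith [hy.2, hz.2]⟩
    have step : ∀ b, a ≤ b → b < z →
        (StrictMonoOn (f^[n + 1]) (Icc b z) ∨ StrictAntiOn (f^[n + 1]) (Icc b z)) →
        ∃ a, -1 ≤ a ∧ a < z ∧
          (StrictMonoOn (f^[n + 1]) (Icc a z) ∨ StrictAntiOn (f^[n + 1]) (Icc a z)) ∧
          ∃ s : SignType, ∀ y ∈ Ioo a z, SignType.sign (c - f^[n + 1] y) = s := by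
      intro b hab hbz hb
      have hG : Continuous (f^[n + 1]) := h.diff.continuous.iterate (n + 1)
      rcases lt_trichotomy (f^[n + 1] z) c with hlt | heq | hgt
      · have h1 : ∀ᶠ y in 𝓝[<] z, f^[n + 1] y < c :=
          (hG.continuousAt.eventually_lt continuousAt_const hlt).filter_mono nhdsWithin_le_nhds
        obtain ⟨a', ha', h2⟩ := (mem_nhdsLT_iff_exists_Ioo_subset' hbz).1
          (h1 : {y | f^[n + 1] y < c} ∈ 𝓝[<] z)
        refine ⟨max a' b, by linarith [le_max_right a' b], max_lt ha' hbz, ?_, 1, ?_⟩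
        · exact hb.imp (fun hh => hh.mono (Icc_subset_Icc_left (le_max_right _ _)))
            (fun hh => hh.mono (Icc_subset_Icc_left (le_max_right _ _)))
        · intro y hy
          have h3 : y ∈ Ioo a' z := ⟨lt_of_le_of_lt (le_max_left _ _) hy.1, hy.2⟩
          have h4 : f^[n + 1] y < c := h2 h3
          exact sign_eq_one_iff.2 (by linarith)
      · rcases hb with hb | hb
        · refine ⟨b, by linarith, hbz, Or.inl hb, 1, ?_⟩
          intro y hy
          have := hb ⟨hy.1.le, hy.2.le⟩ ⟨hbz.le, le_refl _⟩ hy.2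
          exact sign_eq_one_iff.2 (by linarith)
        · refine ⟨b, by linarith, hbz, Or.inr hb, -1, ?_⟩
          intro y hy
          have := hb ⟨hy.1.le, hy.2.le⟩ ⟨hbz.le, le_refl _⟩ hy.2
          exact sign_eq_neg_one_iff.2 (by linarith)
      · have h1 : ∀ᶠ y in 𝓝[<] z, c < f^[n + 1] y :=
          (continuousAt_const.eventually_lt hG.continuousAt hgt).filter_mono nhdsWithin_le_nhds
        obtain ⟨a', ha', h2⟩ := (mem_nhdsLT_iff_exists_Ioo_subset' hbz).1
          (h1 : {y | c < f^[n + 1] y} ∈ 𝓝[<] z)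
        refine ⟨max a' b, by linarith [le_max_right a' b], max_lt ha' hbz, ?_, -1, ?_⟩
        · exact hb.imp (fun hh => hh.mono (Icc_subset_Icc_left (le_max_right _ _)))
            (fun hh => hh.mono (Icc_subset_Icc_left (le_max_right _ _)))
        · intro y hy
          have h3 : y ∈ Ioo a' z := ⟨lt_of_le_of_lt (le_max_left _ _) hy.1, hy.2⟩
          have h4 : c < f^[n + 1] y := h2 h3
          exact sign_eq_neg_one_iff.2 (by linarith)
    have hinc : ∀ b, a ≤ b → (∀ y ∈ Icc b z, f^[n] y ≤ c) →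
        (StrictMonoOn (f^[n]) (Icc a z) → StrictMonoOn (f^[n + 1]) (Icc b z)) ∧
        (StrictAntiOn (f^[n]) (Icc a z) → StrictAntiOn (f^[n + 1]) (Icc b z)) := by
      intro b hab hle
      have hmem : ∀ y ∈ Icc b z, f^[n] y ∈ Icc (-1) c := fun y hy =>
        ⟨(hmaps y ⟨hab.trans hy.1, hy.2⟩).1, hle y hy⟩
      constructor
      · intro hm x hx y hy hxy
        rw [Function.iterate_succ', Function.comp_apply, Function.comp_apply]
        exact h.inc (hmem x hx) (hmem y hy)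
          (hm ⟨hab.trans hx.1, hx.2⟩ ⟨hab.trans hy.1, hy.2⟩ hxy)
      · intro hm x hx y hy hxy
        rw [Function.iterate_succ', Function.comp_apply, Function.comp_apply]
        exact h.inc (hmem y hy) (hmem x hx)
          (hm ⟨hab.trans hx.1, hx.2⟩ ⟨hab.trans hy.1, hy.2⟩ hxy)
    have hdec : ∀ b, a ≤ b → (∀ y ∈ Icc b z, c ≤ f^[n] y) →
        (StrictMonoOn (f^[n]) (Icc a z) → StrictAntiOn (f^[n + 1]) (Icc b z)) ∧
        (StrictAntiOn (f^[n]) (Icc a z) → StrictMonoOn (f^[n + 1]) (Icc b z)) := by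
      intro b hab hle
      have hmem : ∀ y ∈ Icc b z, f^[n] y ∈ Icc c 1 := fun y hy =>
        ⟨hle y hy, (hmaps y ⟨hab.trans hy.1, hy.2⟩).2⟩
      constructor
      · intro hm x hx y hy hxy
        rw [Function.iterate_succ', Function.comp_apply, Function.comp_apply]
        exact h.dec (hmem x hx) (hmem y hy)
          (hm ⟨hab.trans hx.1, hx.2⟩ ⟨hab.trans hy.1, hy.2⟩ hxy)
      · intro hm x hx y hy hxy
        rw [Function.iterate_succ', Function.comp_apply, Function.comp_apply]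
        exact h.dec (hmem y hy) (hmem x hx)
          (hm ⟨hab.trans hx.1, hx.2⟩ ⟨hab.trans hy.1, hy.2⟩ hxy)
    -- find `b` such that the iterate stays on one side of `c` on `[b, z]`
    have hside : ∃ b, a ≤ b ∧ b < z ∧
        ((∀ y ∈ Icc b z, f^[n] y ≤ c) ∨ (∀ y ∈ Icc b z, c ≤ f^[n] y)) := by
      have hmid : a < (a + z) / 2 ∧ (a + z) / 2 < z := ⟨by linarith, by linarith⟩
      -- the sign is constant on `(a, z)`, so it is weakly constant on `[(a+z)/2, z]`
      refine ⟨(a + z) / 2, hmid.1.le, hmid.2, ?_⟩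
      have hclos : ∀ (P : ℝ → Prop), IsClosed {y | P (f^[n] y)} → (∀ y ∈ Ioo a z, P (f^[n] y)) →
          ∀ y ∈ Icc ((a + z) / 2) z, P (f^[n] y) := by
        intro P hP hy y hyI
        have hsub : closure (Ioo a z) ⊆ {y | P (f^[n] y)} := closure_minimal hy hP
        rw [closure_Ioo haz.ne] at hsub
        exact hsub ⟨by linarith [hyI.1], hyI.2⟩
      rcases SignType.trichotomy s with hs' | hs' | hs'
      · right
        exact hclos (fun t => c ≤ t) (isClosed_le continuous_const hcont) (fun y hy => by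
          have := hs y hy
          rw [hs'] at this
          linarith [sign_eq_neg_one_iff.1 this])
      · right
        exact hclos (fun t => c ≤ t) (isClosed_le continuous_const hcont) (fun y hy => by
          have := hs y hy
          rw [hs'] at this
          linarith [sign_eq_zero_iff.1 this])
      · left
        exact hclos (fun t => t ≤ c) (isClosed_le hcont continuous_const) (fun y hy => by
          have := hs y hy
          rw [hs'] at this
          linarith [sign_eq_one_iff.1 this])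
    obtain ⟨b, hab, hbz, hb⟩ := hside
    refine step b hab hbz ?_
    rcases hb with hb | hb
    · exact hF.imp (hinc b hab hb).1 (hinc b hab hb).2
    · rcases hF with hF | hF
      · exact Or.inr ((hdec b hab hb).1 hF)
      · exact Or.inl ((hdec b hab hb).2 hF)

lemma theta_eventually (h : Good f c) {z : ℝ} (hz : z ∈ Ioc (-1 : ℝ) 1) (i : ℕ) :
    ∃ s : SignType, ∀ᶠ y in 𝓝[<] z, SignType.sign (deriv (f^[i]) y) = s := by
  induction i with
  | zero =>
    refine ⟨1, Eventually.of_forall fun y => ?_⟩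
    simp
  | succ n ih =>
    obtain ⟨s, hs⟩ := ih
    obtain ⟨a, ha1, haz, -, t, ht⟩ := iter_mono h hz n
    refine ⟨t * s, ?_⟩
    filter_upwards [hs, Ioo_mem_nhdsLT haz] with y hy1 hy2
    have hyI : y ∈ Icc (-1 : ℝ) 1 := ⟨by linarith [hy2.1], by linarith [hy2.2, hz.2]⟩
    have hd : deriv (f^[n + 1]) y = deriv f (f^[n] y) * deriv (f^[n]) y := by
      rw [Function.iterate_succ']
      exact deriv_comp y (h.diff _) ((h.diff.iterate n) y)
    rw [hd, sign_mul, hy1, h.sgn _ (iter_maps h.toIsUnimodal n hyI), ht y hy2]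

lemma turning_value_mem (h : IsUnimodal f c) : f c ∈ Icc (-1 : ℝ) 1 := h.maps h.mem

lemma turning_value_gt (h : IsUnimodal f c) : -1 < f c := by
  rcases eq_or_lt_of_le h.mem.1 with hc | hc
  · -- then `f` is strictly decreasing on `[-1, 1]`, contradiction
    have := h.dec (a := -1) (b := 1) ⟨by rw [← hc], by norm_num⟩ ⟨h.mem.2, le_refl _⟩ (by norm_num)
    rw [h.left, h.right] at this
    exact absurd this (lt_irrefl _)
  · have := h.inc (a := -1) (b := c) ⟨le_refl _, hc.le⟩ ⟨hc.le, le_refl _⟩ hc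
    rwa [h.left] at this

lemma theta_eq (h : IsUnimodal f c) : ∀ᶠ y in 𝓝[<] (f c), ∀ i,
    theta f i y = SignType.sign (deriv (f^[i + 1]) y) := by
  filter_upwards [Ioo_mem_nhdsLT (turning_value_gt h)] with y hy i
  have h1 := (turning_value_mem h).2
  rw [theta, derivWithin_of_mem_nhds (Icc_mem_nhds hy.1 (by linarith [hy.2]))]

lemma turning_unique {c' : ℝ} (h : IsUnimodal f c) (h' : IsUnimodal f c') : c = c' := by
  by_contra hne
  wlog hlt : c < c' generalizing c c'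
  · exact this h' h (Ne.symm hne) (lt_of_le_of_ne (not_lt.1 hlt) (Ne.symm hne))
  have h1 := h.dec (a := c) (b := c') ⟨le_refl _, h.mem.2⟩ ⟨hlt.le, h'.mem.2⟩ hlt
  have h2 := h'.inc (a := c) (b := c') ⟨h.mem.1, hlt.le⟩ ⟨h'.mem.1, le_refl _⟩ hlt
  exact absurd h1 (not_lt.2 h2.le)

lemma kneading_existsUnique (h : Good f c) : ∃! ν, IsKneading f ν := by
  have hz : f c ∈ Ioc (-1 : ℝ) 1 := ⟨turning_value_gt h.toIsUnimodal,
    (turning_value_mem h.toIsUnimodal).2⟩
  choose s hs using fun i => theta_eventually h hz (i + 1)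
  refine ⟨s, ⟨c, h.toIsUnimodal, fun i => ?_⟩, ?_⟩
  · filter_upwards [hs i, theta_eq h.toIsUnimodal] with y h1 h2
    rw [h2 i, h1]
  · rintro ν ⟨c', hc', hν⟩
    have hcc := turning_unique hc' h.toIsUnimodal
    subst hcc
    funext i
    have := (hν i).and ((hs i).and (theta_eq h.toIsUnimodal))
    obtain ⟨y, h1, h2, h3⟩ := this.exists
    rw [← h1, h3 i, h2]

/-- The first coefficient of the kneading sequence is the sign of `c - f(c)`, with `0`
replaced by `1`. -/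
lemma kneading_zero (h : Good f c) {ν : ℕ → SignType} (hν : IsKneading f ν) :
    (c < f c → ν 0 = -1) ∧ (f c ≤ c → ν 0 = 1) := by
  obtain ⟨c', hc', hν⟩ := hν
  have hcc := turning_unique hc' h.toIsUnimodal
  subst hcc
  have hz := turning_value_gt h.toIsUnimodal
  have hz1 := (turning_value_mem h.toIsUnimodal).2
  constructor
  · intro hlt
    have hm : max (-1) c' < f c' := max_lt hz hlt
    have he : ∀ᶠ y in 𝓝[<] (f c'), y ∈ Ioo (max (-1) c') (f c') := Ioo_mem_nhdsLT hm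
    obtain ⟨y, h1, h2, h3⟩ := ((hν 0).and (he.and (theta_eq h.toIsUnimodal))).exists
    have h4 : c' < y := lt_of_le_of_lt (le_max_right _ _) h2.1
    have h5 : -1 < y := lt_of_le_of_lt (le_max_left _ _) h2.1
    rw [← h1, h3 0]
    simp only [zero_add, Function.iterate_one]
    rw [h.sgn y ⟨h5.le, by linarith [h2.2]⟩]
    exact sign_eq_neg_one_iff.2 (by linarith)
  · intro hle
    have he : ∀ᶠ y in 𝓝[<] (f c'), y ∈ Ioo (-1) (f c') := Ioo_mem_nhdsLT hz
    obtain ⟨y, h1, h2, h3⟩ := ((hν 0).and (he.and (theta_eq h.toIsUnimodal))).exists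
    rw [← h1, h3 0]
    simp only [zero_add, Function.iterate_one]
    rw [h.sgn y ⟨h2.1.le, by linarith [h2.2]⟩]
    exact sign_eq_one_iff.2 (by linarith [h2.2])

end general

/-! ### The explicit family -/

/-- the amplitude `a(μ)` -/
noncomputable def amp (δ μ : ℝ) : ℝ := δ * Real.sin (Real.pi * (μ - 1) / δ)

/-- the coordinate change `h(x) = x - a (1 - x²)^N` -/
def hh (N : ℕ) (a x : ℝ) : ℝ := x - a * (1 - x ^ 2) ^ N

/-- the perturbed family -/
noncomputable def fam (δ : ℝ) (N : ℕ) (μ x : ℝ) : ℝ := (μ - 1) - μ * (hh N (amp δ μ) x) ^ 2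

lemma abs_amp (δ μ : ℝ) (hδ : 0 < δ) : |amp δ μ| ≤ δ := by
  rw [amp, abs_mul, abs_of_pos hδ]
  have := Real.abs_sin_le_one (Real.pi * (μ - 1) / δ)
  nlinarith

lemma hasDerivAt_amp (δ μ : ℝ) (hδ : 0 < δ) :
    HasDerivAt (amp δ) (Real.pi * Real.cos (Real.pi * (μ - 1) / δ)) μ := by
  have h1 : HasDerivAt (fun μ : ℝ => Real.pi * (μ - 1) / δ) (Real.pi * 1 / δ) μ :=
    (((hasDerivAt_id μ).sub_const 1).const_mul Real.pi).div_const δ
  refine ((h1.sin).const_mul δ).congr_deriv ?_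
  field_simp

lemma hasDerivAt_hh (N : ℕ) (a x : ℝ) :
    HasDerivAt (hh N a) (1 - a * (N * (1 - x ^ 2) ^ (N - 1) * (-(2 * x)))) x := by
  have h1 : HasDerivAt (fun x : ℝ => 1 - x ^ 2) (-(2 * x)) x := by
    have := ((hasDerivAt_id x).pow 2).const_sub 1
    simpa using this
  have h2 := (h1.pow N).const_mul a
  exact (hasDerivAt_id x).sub h2

lemma pow_bound {x : ℝ} (hx : x ∈ Icc (-1 : ℝ) 1) (k : ℕ) : |(1 - x ^ 2) ^ k| ≤ 1 := by
  have h1 : 0 ≤ 1 - x ^ 2 := by nlinarith [hx.1, hx.2]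
  have h2 : 1 - x ^ 2 ≤ 1 := by nlinarith
  rw [abs_of_nonneg (pow_nonneg h1 k)]
  exact pow_le_one₀ h1 h2

lemma abs_x {x : ℝ} (hx : x ∈ Icc (-1 : ℝ) 1) : |x| ≤ 1 := abs_le.2 ⟨hx.1, hx.2⟩

/-- `|w'| ≤ 2N` -/
lemma dw_bound {x : ℝ} (hx : x ∈ Icc (-1 : ℝ) 1) (N : ℕ) :
    |(N : ℝ) * (1 - x ^ 2) ^ (N - 1) * (-(2 * x))| ≤ 2 * (N : ℝ) := by
  rw [abs_mul, abs_mul, abs_neg, abs_mul, Nat.abs_cast, abs_two]
  have h1 := pow_bound hx (N - 1)
  have h2 := abs_x hx
  have h3 : (0 : ℝ) ≤ N := Nat.cast_nonneg _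
  calc (N : ℝ) * |(1 - x ^ 2) ^ (N - 1)| * (2 * |x|) ≤ N * 1 * (2 * 1) := by gcongr
    _ = 2 * N := by ring

lemma hh_strictMono {N : ℕ} {a : ℝ} (ha : |a| * (2 * N) < 1) :
    StrictMonoOn (hh N a) (Icc (-1) 1) := by
  apply strictMonoOn_of_deriv_pos (convex_Icc _ _)
  · exact fun x _ => (hasDerivAt_hh N a x).continuousAt.continuousWithinAt
  · intro x hx
    rw [interior_Icc] at hx
    rw [(hasDerivAt_hh N a x).deriv]
    have h1 := dw_bound (x := x) ⟨hx.1.le, hx.2.le⟩ N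
    have h2 : |a * (N * (1 - x ^ 2) ^ (N - 1) * (-(2 * x)))| ≤ |a| * (2 * N) := by
      rw [abs_mul]; gcongr
    have h3 := le_abs_self (a * (N * (1 - x ^ 2) ^ (N - 1) * (-(2 * x))))
    linarith

lemma hh_left {N : ℕ} (hN : N ≠ 0) (a : ℝ) : hh N a (-1) = -1 := by simp [hh, hN]
lemma hh_right {N : ℕ} (hN : N ≠ 0) (a : ℝ) : hh N a 1 = 1 := by simp [hh, hN]

lemma hh_deriv_pos {N : ℕ} {a : ℝ} (ha : |a| * (2 * N) < 1) {x : ℝ} (hx : x ∈ Icc (-1 : ℝ) 1) :
    0 < 1 - a * (N * (1 - x ^ 2) ^ (N - 1) * (-(2 * x))) := by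
  have h1 := dw_bound hx N
  have h2 : |a * (N * (1 - x ^ 2) ^ (N - 1) * (-(2 * x)))| ≤ |a| * (2 * N) := by
    rw [abs_mul]; gcongr
  have h3 := le_abs_self (a * (N * (1 - x ^ 2) ^ (N - 1) * (-(2 * x))))
  linarith

/-- Each member of the family is a unimodal map without further critical points; its turning value
is `μ - 1`. -/
lemma good_of {N : ℕ} (hN : N ≠ 0) {a μ : ℝ} (ha : |a| * (2 * N) < 1) (hμ : μ ∈ Ioc (0 : ℝ) 2) :
    ∃ c, Good (fun x => (μ - 1) - μ * (hh N a x) ^ 2) c ∧ hh N a c = 0 := by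
  have hmono := hh_strictMono ha
  have hcont : Continuous (hh N a) :=
    continuous_iff_continuousAt.2 fun x => (hasDerivAt_hh N a x).continuousAt
  have hI : (0 : ℝ) ∈ Icc (hh N a (-1)) (hh N a 1) := by
    rw [hh_left hN, hh_right hN]; norm_num
  obtain ⟨c, hc, hc0⟩ := intermediate_value_Icc (by norm_num : (-1 : ℝ) ≤ 1) hcont.continuousOn hI
  have hneg : ∀ x ∈ Icc (-1 : ℝ) 1, x < c → hh N a x < 0 := fun x hx hxc => by
    rw [← hc0]; exact hmono hx hc hxc
  have hpos : ∀ x ∈ Icc (-1 : ℝ) 1, c < x → 0 < hh N a x := fun x hx hxc => by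
    rw [← hc0]; exact hmono hc hx hxc
  have hrange : ∀ x ∈ Icc (-1 : ℝ) 1, hh N a x ∈ Icc (-1 : ℝ) 1 := by
    intro x hx
    constructor
    · rw [← hh_left hN a]
      exact hmono.monotoneOn ⟨le_refl _, by norm_num⟩ hx hx.1
    · rw [← hh_right hN a]
      exact hmono.monotoneOn hx ⟨by norm_num, le_refl _⟩ hx.2
  have hder : ∀ x, HasDerivAt (fun x => (μ - 1) - μ * (hh N a x) ^ 2)
      (-(μ * (2 * hh N a x * (1 - a * (N * (1 - x ^ 2) ^ (N - 1) * (-(2 * x))))))) x := by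
    intro x
    refine ((((hasDerivAt_hh N a x).fun_pow 2).const_mul μ).const_sub (μ - 1)).congr_deriv ?_
    norm_num
  refine ⟨c, ⟨⟨hc, ?_, ?_, ?_, ?_, ?_, ?_⟩, fun x => (hder x).differentiableAt, ?_⟩, hc0⟩
  · exact fun x _ => (hder x).continuousAt.continuousWithinAt
  · intro x hx
    have h1 := hrange x hx
    have h2 : 0 ≤ (hh N a x) ^ 2 := sq_nonneg _
    have h3 : (hh N a x) ^ 2 ≤ 1 := by nlinarith [h1.1, h1.2]
    constructor
    · show -1 ≤ (μ - 1) - μ * (hh N a x) ^ 2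
      nlinarith [hμ.1]
    · show (μ - 1) - μ * (hh N a x) ^ 2 ≤ 1
      nlinarith [hμ.1, hμ.2]
  · show (μ - 1) - μ * (hh N a (-1)) ^ 2 = -1
    rw [hh_left hN]; ring
  · show (μ - 1) - μ * (hh N a 1) ^ 2 = -1
    rw [hh_right hN]; ring
  · intro x hx y hy hxy
    have hx1 : x ∈ Icc (-1 : ℝ) 1 := ⟨hx.1, hx.2.trans hc.2⟩
    have hy1 : y ∈ Icc (-1 : ℝ) 1 := ⟨hy.1, hy.2.trans hc.2⟩
    have h1 : hh N a x < hh N a y := hmono hx1 hy1 hxy
    have h2 : hh N a y ≤ 0 := by rw [← hc0]; exact hmono.monotoneOn hy1 hc hy.2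
    show (μ - 1) - μ * (hh N a x) ^ 2 < (μ - 1) - μ * (hh N a y) ^ 2
    have h3 : (hh N a y) ^ 2 < (hh N a x) ^ 2 := by nlinarith
    nlinarith [hμ.1]
  · intro x hx y hy hxy
    have hx1 : x ∈ Icc (-1 : ℝ) 1 := ⟨hc.1.trans hx.1, hx.2⟩
    have hy1 : y ∈ Icc (-1 : ℝ) 1 := ⟨hc.1.trans hy.1, hy.2⟩
    have h1 : hh N a x < hh N a y := hmono hx1 hy1 hxy
    have h2 : 0 ≤ hh N a x := by rw [← hc0]; exact hmono.monotoneOn hc hx1 hx.1
    show (μ - 1) - μ * (hh N a y) ^ 2 < (μ - 1) - μ * (hh N a x) ^ 2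
    have h3 : (hh N a x) ^ 2 < (hh N a y) ^ 2 := by nlinarith
    nlinarith [hμ.1]
  · intro x hx
    rw [(hder x).deriv]
    have hp := hh_deriv_pos ha hx
    have hμ0 := hμ.1
    rcases lt_trichotomy x c with hlt | heq | hgt
    · rw [sign_eq_one_iff.2 (by linarith : 0 < c - x), sign_eq_one_iff]
      have := hneg x hx hlt
      have h5 : 0 < -(hh N a x) * (μ * (2 * (1 - a * (N * (1 - x ^ 2) ^ (N - 1) * (-(2 * x)))))) :=
        mul_pos (by linarith) (by positivity)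
      linarith
    · rw [heq, hc0]; simp
    · rw [sign_eq_neg_one_iff.2 (by linarith : c - x < 0), sign_eq_neg_one_iff]
      have := hpos x hx hgt
      have h5 : 0 < (hh N a x) * (μ * (2 * (1 - a * (N * (1 - x ^ 2) ^ (N - 1) * (-(2 * x)))))) :=
        mul_pos this (by positivity)
      linarith

/-- the perturbation -/
lemma fam_sub (δ : ℝ) (N : ℕ) (μ x : ℝ) : fam δ N μ x - quad μ x =
    μ * (2 * x * (amp δ μ) * (1 - x ^ 2) ^ N - (amp δ μ) ^ 2 * ((1 - x ^ 2) ^ N) ^ 2) := by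
  simp only [fam, quad, hh]; ring

lemma x_pow_bound {x : ℝ} (hx : x ∈ Icc (-1 : ℝ) 1) (M : ℕ) (hM : 0 < M) :
    |x| * |(1 - x ^ 2) ^ (M ^ 2)| ≤ 1 / (2 * M) := by
  have h0 : 0 ≤ 1 - x ^ 2 := by nlinarith [hx.1, hx.2]
  have hM' : (0 : ℝ) < M := by exact_mod_cast hM
  rw [abs_of_nonneg (pow_nonneg h0 _)]
  -- `(1 - x²)^N (1 + N x²) ≤ 1`
  have h1 : (1 - x ^ 2) ^ (M ^ 2) * (1 + (M : ℝ) ^ 2 * x ^ 2) ≤ 1 := by
    have h2 : 1 + ((M ^ 2 : ℕ) : ℝ) * x ^ 2 ≤ (1 + x ^ 2) ^ (M ^ 2) :=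
      one_add_mul_le_pow (by nlinarith [sq_nonneg x]) _
    have h3 : (1 - x ^ 2) ^ (M ^ 2) * (1 + x ^ 2) ^ (M ^ 2) ≤ 1 := by
      rw [← mul_pow]
      apply pow_le_one₀
      · exact mul_nonneg h0 (by positivity)
      · nlinarith [sq_nonneg (x ^ 2)]
    push_cast at h2
    calc (1 - x ^ 2) ^ (M ^ 2) * (1 + (M : ℝ) ^ 2 * x ^ 2)
        ≤ (1 - x ^ 2) ^ (M ^ 2) * (1 + x ^ 2) ^ (M ^ 2) := by
          apply mul_le_mul_of_nonneg_left h2 (pow_nonneg h0 _)
      _ ≤ 1 := h3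
  have h2 : 2 * M * |x| ≤ 1 + (M : ℝ) ^ 2 * x ^ 2 := by
    have : 0 ≤ (1 - M * |x|) ^ 2 := sq_nonneg _
    have h3 : |x| ^ 2 = x ^ 2 := sq_abs x
    nlinarith
  rw [le_div_iff₀ (by positivity)]
  calc |x| * (1 - x ^ 2) ^ (M ^ 2) * (2 * M) = (1 - x ^ 2) ^ (M ^ 2) * (2 * M * |x|) := by ring
    _ ≤ (1 - x ^ 2) ^ (M ^ 2) * (1 + (M : ℝ) ^ 2 * x ^ 2) := by
        apply mul_le_mul_of_nonneg_left h2 (pow_nonneg h0 _)
    _ ≤ 1 := h1

lemma abs_le_helper {a b c A B C : ℝ} (ha : |a| ≤ A) (hb : |b| ≤ B) (hc : |c| ≤ C) :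
    |a * b * c| ≤ A * B * C := by
  rw [abs_mul, abs_mul]
  have hA : 0 ≤ A := (abs_nonneg a).trans ha
  have hB : 0 ≤ B := (abs_nonneg b).trans hb
  have := abs_nonneg b
  have := abs_nonneg c
  gcongr

/-- the `C¹` size of the perturbation -/
lemma c1_bound {δ : ℝ} (hδ : 0 < δ) (hδ1 : δ ≤ 1) {M : ℕ} (hM : 0 < M) {x μ : ℝ}
    (hx : x ∈ Icc (-1 : ℝ) 1) (hμ : μ ∈ Ioc (0 : ℝ) 2) :
    |fam δ (M ^ 2) μ x - quad μ x| +
      |derivWithin (fun y => fam δ (M ^ 2) μ y - quad μ y) (Icc (-1) 1) x| +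
      |derivWithin (fun m => fam δ (M ^ 2) m x - quad m x) (Ioc 0 2) μ| ≤
      (29 + 16 * (M : ℝ) ^ 2) * δ + 8 / M := by
  set N := M ^ 2 with hN
  have ha := abs_amp δ μ hδ
  have hx1 := abs_x hx
  have hw := pow_bound hx N
  have hdw := dw_bound hx N
  have hμ1 : |μ| ≤ 2 := by rw [abs_of_pos hμ.1]; exact hμ.2
  have hxw := x_pow_bound hx M hM
  rw [← hN] at hxw
  have hMpos : (0 : ℝ) < M := by exact_mod_cast hM
  have hNr : (N : ℝ) = (M : ℝ) ^ 2 := by rw [hN]; push_cast; ring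
  have ha' : |Real.pi * Real.cos (Real.pi * (μ - 1) / δ)| ≤ 4 := by
    rw [abs_mul, abs_of_pos Real.pi_pos]
    have h1 := Real.abs_cos_le_one (Real.pi * (μ - 1) / δ)
    have h2 := Real.pi_le_four
    have h3 := Real.pi_pos
    nlinarith [abs_nonneg (Real.cos (Real.pi * (μ - 1) / δ))]
  set a := amp δ μ with hadef
  set a' := Real.pi * Real.cos (Real.pi * (μ - 1) / δ) with ha'def
  set w := (1 - x ^ 2) ^ N with hwdef
  set w' := (N : ℝ) * (1 - x ^ 2) ^ (N - 1) * (-(2 * x)) with hw'def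
  -- the function itself
  have hsq : ∀ t : ℝ, |t| ≤ 1 → |t ^ 2| ≤ 1 := fun t ht => by
    rw [abs_pow]; exact pow_le_one₀ (abs_nonneg _) ht
  have ha2 : |a ^ 2| ≤ δ := by
    rw [abs_pow]
    calc |a| ^ 2 ≤ δ ^ 2 := pow_le_pow_left₀ (abs_nonneg _) ha 2
      _ ≤ δ := by nlinarith
  have e1 : |2 * x * a * w - a ^ 2 * w ^ 2| ≤ 3 * δ := by
    have h1 : |2 * x * a * w| ≤ 2 * δ * 1 := by
      apply abs_le_helper _ ha hw
      rw [abs_mul, abs_two]; linarith
    have h2 : |a ^ 2 * w ^ 2 * 1| ≤ δ * 1 * 1 := abs_le_helper ha2 (hsq w hw) (by simp)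
    rw [mul_one] at h2
    calc _ ≤ |2 * x * a * w| + |a ^ 2 * w ^ 2| := abs_sub _ _
      _ ≤ _ := by linarith
  have E0 : |fam δ N μ x - quad μ x| ≤ 6 * δ := by
    rw [fam_sub, abs_mul]
    calc |μ| * |2 * x * amp δ μ * (1 - x ^ 2) ^ N - amp δ μ ^ 2 * ((1 - x ^ 2) ^ N) ^ 2|
        ≤ 2 * (3 * δ) := by gcongr
      _ = 6 * δ := by ring
  -- the derivative in `x`
  have hwder : HasDerivAt (fun y : ℝ => (1 - y ^ 2) ^ N) w' x := by
    have h1 : HasDerivAt (fun x : ℝ => 1 - x ^ 2) (-(2 * x)) x := by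
      have := ((hasDerivAt_id x).pow 2).const_sub 1
      simpa using this
    exact h1.fun_pow N
  have hPx : HasDerivAt (fun y => fam δ N μ y - quad μ y)
      (μ * (2 * a * w + 2 * x * a * w' - a ^ 2 * (2 * w * w'))) x := by
    have h1 : HasDerivAt (fun y : ℝ => 2 * y * a * (1 - y ^ 2) ^ N)
        (2 * a * w + 2 * x * a * w') x := by
      have h2 : HasDerivAt (fun y : ℝ => 2 * y * a) (2 * a) x := by
        refine (((hasDerivAt_id x).const_mul 2).mul_const a).congr_deriv ?_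
        ring
      exact h2.fun_mul hwder
    have h3 : HasDerivAt (fun y : ℝ => a ^ 2 * ((1 - y ^ 2) ^ N) ^ 2)
        (a ^ 2 * (2 * w * w')) x := by
      refine ((hwder.fun_pow 2).const_mul (a ^ 2)).congr_deriv ?_
      rw [show (2 : ℕ) - 1 = 1 from rfl, pow_one, hwdef]
      push_cast
      ring
    have h4 := (h1.fun_sub h3).const_mul μ
    refine h4.congr_of_eventuallyEq (Eventually.of_forall fun y => ?_)
    show fam δ N μ y - quad μ y = _
    rw [fam_sub]
  have E1 : |derivWithin (fun y => fam δ N μ y - quad μ y) (Icc (-1) 1) x| ≤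
      4 * δ + 16 * N * δ := by
    rw [hPx.hasDerivWithinAt.derivWithin (uniqueDiffOn_Icc (by norm_num) x hx), abs_mul]
    have h1 : |2 * a * w| ≤ 2 * δ * 1 := abs_le_helper (by norm_num) ha hw
    have h2 : |2 * x * a * w'| ≤ 2 * δ * (2 * N) := by
      apply abs_le_helper _ ha hdw
      rw [abs_mul, abs_two]; linarith
    have h3 : |a ^ 2 * (2 * w) * w'| ≤ δ * 2 * (2 * N) := by
      apply abs_le_helper ha2 _ hdw
      rw [abs_mul, abs_two]; linarith
    have h4 : |2 * a * w + 2 * x * a * w' - a ^ 2 * (2 * w * w')| ≤ 2 * δ + 8 * N * δ := by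
      calc _ ≤ |2 * a * w + 2 * x * a * w'| + |a ^ 2 * (2 * w * w')| := abs_sub _ _
        _ ≤ |2 * a * w| + |2 * x * a * w'| + |a ^ 2 * (2 * w * w')| := by
          gcongr; exact abs_add_le _ _
        _ = |2 * a * w| + |2 * x * a * w'| + |a ^ 2 * (2 * w) * w'| := by
          rw [show a ^ 2 * (2 * w * w') = a ^ 2 * (2 * w) * w' by ring]
        _ ≤ _ := by linarith
    calc |μ| * |2 * a * w + 2 * x * a * w' - a ^ 2 * (2 * w * w')|
        ≤ 2 * (2 * δ + 8 * N * δ) := by gcongr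
      _ = _ := by ring
  -- the derivative in `μ`
  have hPm : HasDerivAt (fun m => fam δ N m x - quad m x)
      ((2 * x * a * w - a ^ 2 * w ^ 2) + μ * (2 * x * a' * w - 2 * a * a' * w ^ 2)) μ := by
    have hA := hasDerivAt_amp δ μ hδ
    have h1 : HasDerivAt (fun m : ℝ => 2 * x * amp δ m * w - (amp δ m) ^ 2 * w ^ 2)
        (2 * x * a' * w - 2 * a * a' * w ^ 2) μ := by
      have h2 : HasDerivAt (fun m : ℝ => 2 * x * amp δ m * w) (2 * x * a' * w) μ :=
        (hA.const_mul (2 * x)).mul_const w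
      have h3 : HasDerivAt (fun m : ℝ => (amp δ m) ^ 2 * w ^ 2) (2 * a * a' * w ^ 2) μ := by
        refine ((hA.fun_pow 2).mul_const (w ^ 2)).congr_deriv ?_
        rw [show (2 : ℕ) - 1 = 1 from rfl, pow_one, hadef, ha'def]
        push_cast
        ring
      exact h2.fun_sub h3
    have h4 := (hasDerivAt_id μ).fun_mul h1
    refine (h4.congr_deriv ?_).congr_of_eventuallyEq (Eventually.of_forall fun m => ?_)
    · simp only [id]; ring
    · show fam δ N m x - quad m x = _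
      rw [fam_sub]; rfl
  have E2 : |derivWithin (fun m => fam δ N m x - quad m x) (Ioc 0 2) μ| ≤ 19 * δ + 8 / M := by
    rw [hPm.hasDerivWithinAt.derivWithin (uniqueDiffOn_Ioc 0 2 μ hμ)]
    have h2 : |2 * x * a' * w| ≤ 4 / M := by
      have : |2 * x * a' * w| = 2 * |a'| * (|x| * |w|) := by
        rw [abs_mul, abs_mul, abs_mul, abs_two]; ring
      rw [this]
      calc 2 * |a'| * (|x| * |w|) ≤ 2 * 4 * (1 / (2 * M)) := by gcongr
        _ = 4 / M := by field_simp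
    have h3 : |2 * a * a' * w ^ 2| ≤ 2 * δ * 4 * 1 := by
      rw [abs_mul]
      have h5 : |2 * a * a'| ≤ 2 * δ * 4 := abs_le_helper (by norm_num) ha ha'
      have h6 := hsq w hw
      gcongr
    calc |(2 * x * a * w - a ^ 2 * w ^ 2) + μ * (2 * x * a' * w - 2 * a * a' * w ^ 2)|
        ≤ |2 * x * a * w - a ^ 2 * w ^ 2| + |μ| * |2 * x * a' * w - 2 * a * a' * w ^ 2| := by
          rw [← abs_mul]; exact abs_add_le _ _
      _ ≤ 3 * δ + 2 * (4 / M + 2 * δ * 4 * 1) := by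
          gcongr
          exact (abs_sub _ _).trans (add_le_add h2 h3)
      _ = 19 * δ + 8 / M := by ring
  rw [← hNr]
  linarith

lemma contDiff_fam (δ : ℝ) (N : ℕ) (n : WithTop ℕ∞) :
    ContDiff ℝ n (fun p : ℝ × ℝ => fam δ N p.2 p.1) := by
  unfold fam hh amp
  fun_prop

/-- higher derivatives in `x` -/
lemma iter_bound (N r : ℕ) : ∃ C : ℝ, 0 ≤ C ∧ ∀ δ : ℝ, 0 < δ → δ ≤ 1 → ∀ μ ∈ Ioc (0 : ℝ) 2,
    ∀ x ∈ Icc (-1 : ℝ) 1, ∀ k ≤ r,
      |iteratedDerivWithin k (fun y => fam δ N μ y - quad μ y) (Icc (-1) 1) x| ≤ C * δ := by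
  set A : ℝ → ℝ := fun x => 2 * x * (1 - x ^ 2) ^ N with hA
  set B : ℝ → ℝ := fun x => ((1 - x ^ 2) ^ N) ^ 2 with hB
  have hAs : ∀ n : WithTop ℕ∞, ContDiff ℝ n A := fun n => by rw [hA]; fun_prop
  have hBs : ∀ n : WithTop ℕ∞, ContDiff ℝ n B := fun n => by rw [hB]; fun_prop
  have hbd : ∀ F : ℝ → ℝ, (∀ n : WithTop ℕ∞, ContDiff ℝ n F) → ∀ k : ℕ, ∃ C : ℝ,
      ∀ x ∈ Icc (-1 : ℝ) 1, |iteratedDerivWithin k F (Icc (-1) 1) x| ≤ C := by
    intro F hF k
    have hc : ContinuousOn (iteratedDerivWithin k F (Icc (-1) 1)) (Icc (-1) 1) :=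
      ((hF k).contDiffOn).continuousOn_iteratedDerivWithin (le_refl _)
        (uniqueDiffOn_Icc (by norm_num))
    obtain ⟨C, hC⟩ := isCompact_Icc.exists_bound_of_continuousOn hc
    exact ⟨C, fun x hx => by simpa using hC x hx⟩
  choose CA hCA using hbd A hAs
  choose CB hCB using hbd B hBs
  refine ⟨∑ k ∈ Finset.range (r + 1), 2 * (|CA k| + |CB k|), by positivity, ?_⟩
  intro δ hδ hδ1 μ hμ x hx k hk
  have hμ1 : |μ| ≤ 2 := by rw [abs_of_pos hμ.1]; exact hμ.2
  have ha := abs_amp δ μ hδ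
  have hfun : (fun y => fam δ N μ y - quad μ y) =
      (fun y => (μ * amp δ μ) * A y) - (fun y => (μ * (amp δ μ) ^ 2) * B y) := by
    funext y
    rw [Pi.sub_apply, fam_sub, hA, hB]
    ring
  have hu := uniqueDiffOn_Icc (show (-1 : ℝ) < 1 by norm_num)
  have h1 : iteratedDerivWithin k (fun y => fam δ N μ y - quad μ y) (Icc (-1) 1) x =
      (μ * amp δ μ) * iteratedDerivWithin k A (Icc (-1) 1) x -
        (μ * (amp δ μ) ^ 2) * iteratedDerivWithin k B (Icc (-1) 1) x := by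
    rw [hfun, iteratedDerivWithin_sub hx hu
      ((contDiff_const.mul (hAs k)).contDiffOn.contDiffWithinAt hx)
      ((contDiff_const.mul (hBs k)).contDiffOn.contDiffWithinAt hx),
      iteratedDerivWithin_const_mul hx hu _ ((hAs k).contDiffOn.contDiffWithinAt hx),
      iteratedDerivWithin_const_mul hx hu _ ((hBs k).contDiffOn.contDiffWithinAt hx)]
  have h2 : |(μ * amp δ μ) * iteratedDerivWithin k A (Icc (-1) 1) x| ≤ 2 * δ * |CA k| :=
    abs_le_helper hμ1 ha ((hCA k x hx).trans (le_abs_self _))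
  have ha2 : |(amp δ μ) ^ 2| ≤ δ := by
    rw [abs_pow]
    calc |amp δ μ| ^ 2 ≤ δ ^ 2 := pow_le_pow_left₀ (abs_nonneg _) ha 2
      _ ≤ δ := by nlinarith
  have h3 : |(μ * (amp δ μ) ^ 2) * iteratedDerivWithin k B (Icc (-1) 1) x| ≤ 2 * δ * |CB k| :=
    abs_le_helper hμ1 ha2 ((hCB k x hx).trans (le_abs_self _))
  have h4 : 2 * (|CA k| + |CB k|) ≤ ∑ k ∈ Finset.range (r + 1), 2 * (|CA k| + |CB k|) :=
    Finset.single_le_sum (f := fun k => 2 * (|CA k| + |CB k|)) (fun i _ => by positivity)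
      (Finset.mem_range.2 (by omega))
  rw [h1]
  calc _ ≤ 2 * δ * |CA k| + 2 * δ * |CB k| := (abs_sub _ _).trans (add_le_add h2 h3)
    _ = 2 * (|CA k| + |CB k|) * δ := by ring
    _ ≤ _ := by gcongr

/-- **Main theorem.** For every `ε > 0` and every `r` there is a one-parameter family `(g_μ)` of
unimodal maps, real analytic in `(x, μ) ∈ ℝ²`, with `C¹` distance less than `ε` from the quadratic
family (and with all `x`-derivatives of order at most `r` uniformly `ε`-close), each member of which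
has a unique kneading sequence, and along which the kneading sequence is not monotone. -/
theorem result (ε : ℝ) (hε : 0 < ε) (r : ℕ) :
    ∃ g : ℝ → ℝ → ℝ, IsFamily g ∧ c1Dist g quad < ENNReal.ofReal ε ∧
      AnalyticOnNhd ℝ (fun p : ℝ × ℝ => g p.2 p.1) univ ∧
      (∀ μ ∈ Ioc (0 : ℝ) 2, ∀ x ∈ Icc (-1 : ℝ) 1, ∀ k ≤ r,
        |iteratedDerivWithin k (fun y => g μ y - quad μ y) (Icc (-1) 1) x| < ε) ∧
      (∀ μ ∈ Ioc (0 : ℝ) 2, ∃! ν, IsKneading (g μ) ν) ∧
      ¬ KneadingMonotone g := by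
  obtain ⟨M, hM⟩ := exists_nat_gt (32 / ε)
  have hMpos : (0 : ℝ) < M := lt_trans (by positivity) hM
  have hM0 : 0 < M := by exact_mod_cast hMpos
  set N := M ^ 2 with hN
  have hN0 : N ≠ 0 := by positivity
  obtain ⟨C, hC0, hC⟩ := iter_bound N r
  set K : ℝ := 30 + 16 * (M : ℝ) ^ 2 + C with hK
  have hKpos : 0 < K := by positivity
  set δ : ℝ := min 1 ε / (4 * K) with hδ
  have hδpos : 0 < δ := by
    apply div_pos (lt_min one_pos hε) (by positivity)
  have hδK : δ * K = min 1 ε / 4 := by rw [hδ]; field_simp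
  have hδK1 : δ * K ≤ 1 / 4 := by rw [hδK]; linarith [min_le_left 1 ε]
  have hδK2 : δ * K ≤ ε / 4 := by rw [hδK]; linarith [min_le_right 1 ε]
  have hsqM : 0 ≤ (M : ℝ) ^ 2 := sq_nonneg _
  have hδ1 : δ ≤ 1 := by nlinarith
  have hNr : (N : ℝ) = (M : ℝ) ^ 2 := by rw [hN]; push_cast; ring
  have hδN : δ * (2 * N) < 1 := by rw [hNr]; nlinarith
  have hampN : ∀ μ, |amp δ μ| * (2 * N) < 1 := fun μ =>
    lt_of_le_of_lt (mul_le_mul_of_nonneg_right (abs_amp δ μ hδpos) (by positivity)) hδN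
  have hgood : ∀ μ ∈ Ioc (0 : ℝ) 2, ∃ c, Good (fam δ N μ) c ∧ hh N (amp δ μ) c = 0 := fun μ hμ =>
    good_of hN0 (hampN μ) hμ
  refine ⟨fam δ N, ⟨?_, (contDiff_fam δ N 1).contDiffOn⟩, ?_, ?_, ?_, ?_, ?_⟩
  · intro μ hμ
    obtain ⟨c, hc, -⟩ := hgood μ hμ
    exact ⟨c, hc.toIsUnimodal⟩
  · have hb : (29 + 16 * (M : ℝ) ^ 2) * δ + 8 / M ≤ ε / 2 := by
      have h1 : 8 / (M : ℝ) ≤ ε / 4 := by
        rw [div_lt_iff₀ hε] at hM
        rw [div_le_iff₀ hMpos]
        nlinarith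
      nlinarith
    refine lt_of_le_of_lt ?_ ((ENNReal.ofReal_lt_ofReal_iff hε).2 (half_lt_self hε))
    refine iSup₂_le fun x hx => iSup₂_le fun μ hμ => ENNReal.ofReal_le_ofReal ?_
    exact (c1_bound hδpos hδ1 hM0 hx hμ).trans hb
  · exact contDiff_omega_iff_analyticOnNhd.1 (contDiff_fam δ N _)
  · intro μ hμ x hx k hk
    have := hC δ hδpos hδ1 μ hμ x hx k hk
    have h2 : C * δ ≤ ε / 4 := by nlinarith
    linarith
  · intro μ hμ
    obtain ⟨c, hc, -⟩ := hgood μ hμ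
    exact kneading_existsUnique hc
  · intro hmon
    have hex : ∀ μ ∈ Ioc (0 : ℝ) 2, ∃ ν, IsKneading (fam δ N μ) ν := by
      intro μ hμ
      obtain ⟨c, hc, -⟩ := hgood μ hμ
      exact (kneading_existsUnique hc).exists
    choose! ν hν using hex
    -- the turning value is `μ - 1`
    have hval : ∀ μ c, hh N (amp δ μ) c = 0 → fam δ N μ c = μ - 1 := by
      intro μ c hc
      simp [fam, hc]
    have key : ∀ μ ∈ Ioc (0 : ℝ) 2, (0 < hh N (amp δ μ) (μ - 1) → ν μ 0 = -1) ∧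
        (hh N (amp δ μ) (μ - 1) ≤ 0 → ν μ 0 = 1) := by
      intro μ hμ
      obtain ⟨c, hc, hc0⟩ := hgood μ hμ
      have hkz := kneading_zero hc (hν μ hμ)
      have hmono := hh_strictMono (hampN μ)
      have hmem : μ - 1 ∈ Icc (-1 : ℝ) 1 := ⟨by linarith [hμ.1], by linarith [hμ.2]⟩
      rw [hval μ c hc0] at hkz
      constructor
      · intro hpos
        apply hkz.1
        by_contra hle
        have := hmono.monotoneOn hmem hc.mem (not_lt.1 hle)
        rw [hc0] at this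
        linarith
      · intro hneg
        apply hkz.2
        by_contra hle
        have := hmono hc.mem hmem (not_le.1 hle)
        rw [hc0] at this
        linarith
    have hδ4 : δ ≤ 1 / 4 := by nlinarith
    have m1 : (1 - δ / 2) ∈ Ioc (0 : ℝ) 2 := ⟨by linarith, by linarith⟩
    have m2 : (1 : ℝ) ∈ Ioc (0 : ℝ) 2 := ⟨by norm_num, by norm_num⟩
    have m3 : (1 + δ) ∈ Ioc (0 : ℝ) 2 := ⟨by linarith, by linarith⟩
    have k1 : ν (1 - δ / 2) 0 = -1 := by
      apply (key _ m1).1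
      have ha : amp δ (1 - δ / 2) = -δ := by
        rw [amp, show Real.pi * (1 - δ / 2 - 1) / δ = -(Real.pi / 2) by field_simp; ring,
          Real.sin_neg, Real.sin_pi_div_two]
        ring
      rw [ha, hh]
      have hb : 1 + (N : ℝ) * (-(δ ^ 2 / 4)) ≤ (1 + (-(δ ^ 2 / 4))) ^ N :=
        one_add_mul_le_pow (by nlinarith) N
      have hb2 : (N : ℝ) * (δ ^ 2 / 4) < 1 / 2 := by nlinarith
      have hb3 : (1 - (1 - δ / 2 - 1) ^ 2) = 1 + (-(δ ^ 2 / 4)) := by ring
      rw [hb3]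
      nlinarith
    have k2 : ν 1 0 = 1 := by
      apply (key _ m2).2
      have ha : amp δ 1 = 0 := by simp [amp]
      rw [ha, hh]
      norm_num
    have k3 : ν (1 + δ) 0 = -1 := by
      apply (key _ m3).1
      have ha : amp δ (1 + δ) = 0 := by
        rw [amp, show Real.pi * (1 + δ - 1) / δ = Real.pi by field_simp; ring, Real.sin_pi]
        ring
      rw [ha, hh]
      linarith
    rcases hmon ν hν with h | h
    · rcases h 1 m2 (1 + δ) m3 (by linarith) with heq | ⟨j, hj, hlt⟩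
      · rw [heq, k3] at k2
        exact absurd k2 (by decide)
      · rcases Nat.eq_zero_or_pos j with rfl | hj0
        · rw [k2, k3] at hlt
          exact absurd hlt (by decide)
        · have := hj 0 hj0
          rw [k2, k3] at this
          exact absurd this (by decide)
    · rcases h (1 - δ / 2) m1 1 m2 (by linarith) with heq | ⟨j, hj, hlt⟩
      · rw [heq, k2] at k1
        exact absurd k1 (by decide)
      · rcases Nat.eq_zero_or_pos j with rfl | hj0
        · rw [k1, k2] at hlt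
          exact absurd hlt (by decide)
        · have := hj 0 hj0
          rw [k1, k2] at this
          exact absurd this (by decide)

end Pool.Agent.Results.MP_ace4dd_an.NotMonotone
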